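import Pool.Agent.Helper43.LO.Goals

set_option autoImplicit false

/-!
# Packet LO-MUL
-/

namespace Pool.Agent.Helper12.LO

open Finset Pool.Agent.Helper33.Schur Pool.Agent.Helper43.LO

set_option maxRecDepth 20000 in
theorem F_col (m : ℕ) (hm : 1 ≤ m) :
    134 * (m * m) ≤ F (67 * m) (col m) * 2 + 26 * m := by
  set T : Finset ((ℕ × ℕ) × (ℕ × ℕ)) :=
    ((range 67 ×ˢ range 67) ×ˢ (range m ×ˢ range m)).filter
      (fun r => (cond0 r.1.1 r.1.2 ∧ r.2.1 + r.2.2 + 1 < m) ∨
        (cond1 r.1.1 r.1.2 ∧ m ≤ r.2.1 + r.2.2 + 1)) with hT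
  have hcard : T.card * 2 + 26 * m = 134 * (m * m) := by
    rw [hT, filter_or, card_union_of_disjoint]
    · rw [filter_product (fun p : ℕ × ℕ => cond0 p.1 p.2) (fun q : ℕ × ℕ => q.1 + q.2 + 1 < m),
        filter_product (fun p : ℕ × ℕ => cond1 p.1 p.2) (fun q : ℕ × ℕ => m ≤ q.1 + q.2 + 1),
        card_product, card_product, K0, K1]
      have h0 := card_low m
      have h1 := card_high m
      obtain ⟨M, rfl⟩ : ∃ M, m = M + 1 := ⟨m - 1, by omega⟩
      simp only [Nat.add_sub_cancel] at h0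
      nlinarith
    · rw [disjoint_filter]
      intro r _ h1 h2
      omega
  have hle : T.card ≤ F (67 * m) (col m) := by
    unfold F
    refine card_le_card_of_injOn
      (fun r => (r.1.1 * m + r.2.1 + 1, r.1.2 * m + r.2.2 + 1)) ?_ ?_
    · rintro ⟨⟨i, j⟩, ⟨a, b⟩⟩ hr
      have hr' : (((i, j), (a, b)) : (ℕ × ℕ) × (ℕ × ℕ)) ∈ T := hr
      rw [hT, mem_filter, mem_product, mem_product, mem_product, mem_range, mem_range,
        mem_range, mem_range] at hr'
      obtain ⟨⟨⟨hi, hj⟩, ⟨ha, hb⟩⟩, hc⟩ := hr'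
      simp only at hi hj ha hb hc
      have e1 : (i * m + a + 1 - 1) / m = i := by
        rw [Nat.add_sub_cancel, mul_comm, Nat.mul_add_div (by omega), Nat.div_eq_of_lt ha, add_zero]
      have e2 : (j * m + b + 1 - 1) / m = j := by
        rw [Nat.add_sub_cancel, mul_comm, Nat.mul_add_div (by omega), Nat.div_eq_of_lt hb, add_zero]
      have hi' : (i + 1) * m ≤ 67 * m := Nat.mul_le_mul_right m (by omega)
      have hj' : (j + 1) * m ≤ 67 * m := Nat.mul_le_mul_right m (by omega)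
      show ((i * m + a + 1, j * m + b + 1) : ℕ × ℕ) ∈ ((_ : Finset (ℕ × ℕ)) : Set _)
      rw [Finset.mem_coe, mem_filter, mem_product, mem_Icc, mem_Icc]
      simp only
      rcases hc with ⟨⟨h1, h2, h3⟩, h4⟩ | ⟨⟨h1, h2, h3⟩, h4⟩
      · have e3 : (i * m + a + 1 + (j * m + b + 1) - 1) / m = i + j := by
          have : i * m + a + 1 + (j * m + b + 1) - 1 = m * (i + j) + (a + b + 1) := by
            rw [mul_add, mul_comm m i, mul_comm m j]; omega
          rw [this, Nat.mul_add_div (by omega), Nat.div_eq_of_lt h4, add_zero]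
        have h5 : (i + j + 1) * m ≤ 67 * m := Nat.mul_le_mul_right m (by omega)
        have h6 : (i + j + 1) * m = i * m + j * m + m := by ring
        refine ⟨⟨⟨by omega, by nlinarith⟩, ⟨by omega, by nlinarith⟩⟩, by omega, ?_, ?_⟩
        · unfold col; rw [e1, e2]; exact h2
        · unfold col; rw [e2, e3]; exact h3
      · have e3 : (i * m + a + 1 + (j * m + b + 1) - 1) / m = i + j + 1 := by
          have : i * m + a + 1 + (j * m + b + 1) - 1 = m * (i + j + 1) + (a + b + 1 - m) := by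
            rw [mul_add, mul_add, mul_comm m i, mul_comm m j]; omega
          rw [this, Nat.mul_add_div (by omega), Nat.div_eq_of_lt (by omega), add_zero]
        have h5 : (i + j + 1 + 1) * m ≤ 67 * m := Nat.mul_le_mul_right m (by omega)
        have h6 : (i + j + 1 + 1) * m = i * m + j * m + m + m := by ring
        refine ⟨⟨⟨by omega, by nlinarith⟩, ⟨by omega, by nlinarith⟩⟩, by omega, ?_, ?_⟩
        · unfold col; rw [e1, e2]; exact h2
        · unfold col; rw [e2, e3]; exact h3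
    · rintro ⟨⟨i, j⟩, ⟨a, b⟩⟩ hr ⟨⟨i', j'⟩, ⟨a', b'⟩⟩ hr' heq
      have h1 : (((i, j), (a, b)) : (ℕ × ℕ) × (ℕ × ℕ)) ∈ T := hr
      have h2 : (((i', j'), (a', b')) : (ℕ × ℕ) × (ℕ × ℕ)) ∈ T := hr'
      rw [hT, mem_filter, mem_product, mem_product, mem_product, mem_range, mem_range,
        mem_range, mem_range] at h1 h2
      obtain ⟨⟨_, ⟨ha, hb⟩⟩, _⟩ := h1
      obtain ⟨⟨_, ⟨ha', hb'⟩⟩, _⟩ := h2
      simp only at ha hb ha' hb'
      simp only [Prod.mk.injEq] at heq
      obtain ⟨g1, g2⟩ := heq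
      have k1 : i = i' ∧ a = a' := by
        have e1 : (i * m + a) / m = i := by
          rw [mul_comm, Nat.mul_add_div (by omega), Nat.div_eq_of_lt ha, add_zero]
        have e2 : (i' * m + a') / m = i' := by
          rw [mul_comm, Nat.mul_add_div (by omega), Nat.div_eq_of_lt ha', add_zero]
        have e3 : i * m + a = i' * m + a' := by omega
        have e4 : i = i' := by rw [← e1, ← e2, e3]
        refine ⟨e4, ?_⟩
        rw [e4] at e3
        omega
      have k2 : j = j' ∧ b = b' := by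
        have e1 : (j * m + b) / m = j := by
          rw [mul_comm, Nat.mul_add_div (by omega), Nat.div_eq_of_lt hb, add_zero]
        have e2 : (j' * m + b') / m = j' := by
          rw [mul_comm, Nat.mul_add_div (by omega), Nat.div_eq_of_lt hb', add_zero]
        have e3 : j * m + b = j' * m + b' := by omega
        have e4 : j = j' := by rw [← e1, ← e2, e3]
        refine ⟨e4, ?_⟩
        rw [e4] at e3
        omega
      rw [k1.1, k1.2, k2.1, k2.2]
  omega

theorem col_mid (m x : ℕ) (hm : 1 ≤ m) (h1 : 29 * m < x) (h2 : x ≤ 51 * m) : col m x = 2 := by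
  unfold col
  have h3 : 29 ≤ (x - 1) / m := by
    rw [Nat.le_div_iff_mul_le (by omega)]; omega
  have h4 : (x - 1) / m < 51 := by
    rw [Nat.div_lt_iff_lt_mul (by omega)]; omega
  unfold blk
  rw [if_neg (by omega), if_neg (by omega), if_neg (by omega), if_pos (by omega)]

theorem arith (m p r e d d1 S F F0 F1 F2 K : ℤ) (hp : 0 ≤ p) (hr : 0 ≤ r) (he : 0 ≤ e)
    (hd : d = p + r + e) (hd1 : d1 ≤ d) (hm : 160 * d ≤ m) (hK : K ≤ F0)
    (h1 : 3 * F1 + p ^ 2 - 3 * p - 24 * p * r ≤ 3 * F)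
    (h2 : F2 + S - 12 * d1 * r ≤ F1) (hS : r * (m - 40) ≤ 4 * S)
    (h3 : 40 * F0 + e ^ 2 - 600 * e ≤ 40 * F2) :
    44 * K + d ^ 2 - 660 * d ≤ 44 * F := by
  have a1 : d1 * r ≤ d * r := mul_le_mul_of_nonneg_right hd1 hr
  have a2 : 160 * d * r ≤ m * r := mul_le_mul_of_nonneg_right hm hr
  have a3 : p * r ≤ d * r := mul_le_mul_of_nonneg_right (by linarith) hr
  have a4 : r * r ≤ d * r := mul_le_mul_of_nonneg_right (by linarith) hr
  have a5 := sq_nonneg (2 * e - 25 * p)
  have a6 := sq_nonneg (e - 50 * r)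
  have a7 := sq_nonneg (p - r)
  have a8 := sq_nonneg p
  have a9 := sq_nonneg r
  have b1 : 1320 * F2 ≥ 1320 * F0 + 33 * e ^ 2 - 19800 * e := by linarith
  have b2 : 1320 * F1 ≥ 1320 * F2 + 330 * (r * (m - 40)) - 15840 * (d1 * r) := by linarith
  have b3 : 1320 * F ≥ 1320 * F1 + 440 * p ^ 2 - 1320 * p - 10560 * (p * r) := by linarith
  have b4 : 330 * (r * (m - 40)) = 330 * (m * r) - 13200 * r := by ring
  have b5 : 1320 * F ≥ 1320 * F0 + 33 * e ^ 2 - 19800 * e + 440 * p ^ 2 - 1320 * p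
      + 26400 * (d * r) - 13200 * r := by linarith
  have b6 : 30 * d ^ 2 ≤ 33 * e ^ 2 + 440 * p ^ 2 + 26400 * (r * r) := by
    rw [hd]
    nlinarith
  have b7 : 30 * (44 * K + d ^ 2 - 660 * d) ≤ 30 * (44 * F) := by
    have : 19800 * d = 19800 * p + 19800 * r + 19800 * e := by rw [hd]; ring
    linarith
  linarith

theorem goalMUL (hGAP : G_GAP) (hLIN : G_LIN) (hPLAT : G_PLAT) (hEND : G_END) : G_MUL := by
  intro m χ hm hD
  set N := 67 * m with hN
  set f := col m with hf
  set P := PP m χ with hP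
  set R := RR m χ with hR
  set D := dif N χ f with hDdef
  set χ1 : ℕ → Fin 3 := fun x => if x ∈ P then f x else χ x with hχ1
  set χ2 : ℕ → Fin 3 := fun x => if x ∈ R then f x else χ1 x with hχ2
  set D1 := dif N χ1 f with hD1
  set E := dif N χ2 f with hE
  have memD : ∀ x, x ∈ D ↔ (1 ≤ x ∧ x ≤ N) ∧ χ x ≠ f x := by
    intro x; rw [hDdef, dif, mem_filter, mem_Icc]
  have memP : ∀ x, x ∈ P ↔ (1 ≤ x ∧ x ≤ N) ∧ isP m x (χ x) := by
    intro x; rw [hP, PP, mem_filter, mem_Icc]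
  have memR : ∀ x, x ∈ R ↔ x ∈ D ∧ (¬ isP m x (χ x) ∧
      ∀ i : Fin 6, ¬ isR m i x (χ x) ∧ ¬ isL m i x (χ x)) := by
    intro x; rw [hR, RR, mem_filter]
  have hPD : ∀ x ∈ P, x ∈ D := by
    intro x hx
    obtain ⟨h1, h2, h3, h4⟩ := (memP x).1 hx
    rw [memD]
    refine ⟨h1, ?_⟩
    rw [h4, hf, col_mid m x hm h2 h3]
    decide
  have hPR : ∀ x ∈ P, x ∉ R := by
    intro x hx hxR
    exact ((memR x).1 hxR).2.1 ((memP x).1 hx).2
  have memD1 : ∀ x, x ∈ D1 ↔ x ∈ D ∧ x ∉ P := by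
    intro x
    rw [hD1, dif, mem_filter, mem_Icc, memD]
    by_cases hx : x ∈ P
    · simp [hχ1, hx]
    · simp [hχ1, hx]
  have memE : ∀ x, x ∈ E ↔ x ∈ D ∧ x ∉ P ∧ x ∉ R := by
    intro x
    rw [hE, dif, mem_filter, mem_Icc, memD]
    by_cases hx : x ∈ R
    · simp [hχ2, hx]
    · by_cases hx' : x ∈ P
      · simp [hχ2, hχ1, hx, hx']
      · simp [hχ2, hχ1, hx, hx']
  have hcardD : D.card = P.card + R.card + E.card := by
    have e1 : D = (P ∪ R) ∪ E := by
      ext x
      rw [mem_union, mem_union, memE]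
      constructor
      · intro h
        tauto
      · rintro ((h | h) | h)
        · exact hPD x h
        · exact ((memR x).1 h).1
        · exact h.1
    rw [e1, card_union_of_disjoint, card_union_of_disjoint]
    · rw [disjoint_left]; exact hPR
    · rw [disjoint_left]
      intro x hx hxE
      have := (memE x).1 hxE
      rcases mem_union.1 hx with h | h
      · exact this.2.1 h
      · exact this.2.2 h
  have hcardD1 : D1.card ≤ D.card := card_le_card (fun x hx => ((memD1 x).1 hx).1)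
  -- PLAT
  have h1 := hPLAT m χ hm
  -- LIN
  have hRD1 : R ⊆ D1 := by
    intro x hx
    rw [memD1]
    exact ⟨((memR x).1 hx).1, fun h => hPR x h hx⟩
  have h2 := hLIN N χ1 f R hRD1
  have hS : (R.card : ℤ) * ((m : ℤ) - 40) ≤
      4 * ∑ z ∈ R, ((W N f (χ1 z) z : ℤ) - W N f (f z) z) := by
    rw [mul_sum, ← nsmul_eq_mul, ← sum_const]
    refine sum_le_sum (fun z hz => ?_)
    have hz' := (memR z).1 hz
    have hzD := (memD z).1 hz'.1
    have hzP : z ∉ P := fun h => hPR z h hz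
    have e1 : χ1 z = χ z := by simp [hχ1, hzP]
    rw [e1]
    exact (hGAP m z (χ z) hm hzD.1.1 hzD.1.2 hzD.2).2.2 hz'.2.1 hz'.2.2
  -- END
  have hcond : ∀ x ∈ dif (67 * m) χ2 (col m), ∃ i : Fin 6, isR m i x (χ2 x) ∨ isL m i x (χ2 x) := by
    intro x hx
    have hx' := (memE x).1 hx
    have hxD := (memD x).1 hx'.1
    have e1 : χ2 x = χ x := by simp [hχ2, hχ1, hx'.2.1, hx'.2.2]
    rw [e1]
    by_contra hcon
    push Not at hcon
    apply hx'.2.2
    rw [memR]
    refine ⟨hx'.1, fun h => hx'.2.1 ?_, fun i => hcon i⟩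
    rw [memP]
    exact ⟨hxD.1, h⟩
  have h3 := hEND m χ2 hm hcond
  have h0 := F_col m hm
  have hK : 67 * (m : ℤ) ^ 2 - 13 * m ≤ F (67 * m) (col m) := by
    have : (134 * ((m : ℤ) * m)) ≤ (F (67 * m) (col m) : ℤ) * 2 + 26 * m := by exact_mod_cast h0
    nlinarith
  refine arith (m : ℤ) P.card R.card E.card D.card D1.card
    (∑ z ∈ R, ((W N f (χ1 z) z : ℤ) - W N f (f z) z)) (F N χ) (F (67 * m) (col m))
    (F N χ1) (F N χ2) _ (by positivity) (by positivity) (by positivity)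
    (by exact_mod_cast hcardD) (by exact_mod_cast hcardD1) (by exact_mod_cast hD) hK h1 h2 hS h3

end Pool.Agent.Helper12.LO
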